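import Pool.Agent.Zk93.F2.E

/-! Two dimensions: fixed times, disorder average. -/

set_option autoImplicit false

open scoped BigOperators Topology InnerProductSpace
open MeasureTheory Filter

namespace Pool.Agent.Zk93.F2

open Pool.Agent.Zk11.QD (Zd HZ PZ)
open Pool.Agent.Zk11.QQ (sh ex ex_norm sh_map sh_meas)
open Pool.Agent.Zk93.TE
open Pool.Agent.Zk93.FT
open Pool.Agent.Zk71.S2 (gg hh gg_int gg_one gg_meas hh_meas gg_pos hh_pos Dd2 Dd2_nonneg Dd2_meas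
  Mt2 Mt2_bd Mt2_meas Mf2 Mf2_int Sx Sx_ms Ib Ib_ms Ib_sub Ib_vol gg_bulk quench3 evoA2)

/-- **fixed times, disorder average** -/
theorem fixA2 (b v0 : ℝ) (hv0 : 0 < v0) (κ : ℝ) (hκ0 : 0 < κ) (hκ1 : κ < 1 / 3)
    (R : ℝ) (ε : ℝ) (hε : 0 < ε) :
    ∃ δ : ℝ, 0 < δ ∧ ∀ (μ : Measure ℝ) [IsProbabilityMeasure μ], (∀ᵐ s ∂μ, |s| ≤ b) →
      ∀ V : ℝ, V = ∫ s, (s - ∫ t, t ∂μ) ^ 2 ∂μ → v0 ≤ V → ∀ lam : ℝ, 0 < lam → lam < δ →
      ∀ T : ℝ, lam ^ (-2 : ℝ) / δ ≤ T → T ≤ lam ^ (-(2 + κ)) →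
      ∀ P : Fin 2 → ℝ, (∀ j, |P j| ≤ R) → ∀ τ : ℝ, 0 ≤ τ → τ ≤ R →
      ‖mf μ b lam (fun j => lam / Real.sqrt T * P j) (τ * T) -
          ((Real.pi⁻¹ * Mt2 V (∑ j, P j ^ 2) τ : ℝ) : ℂ)‖ ≤ ε := by
  have hpi := Real.pi_pos
  set ε' : ℝ := min ε 1 with hε'
  have hε'0 : 0 < ε' := lt_min hε one_pos
  set R' : ℝ := |R| with hR'
  have hR'0 : 0 ≤ R' := abs_nonneg R
  obtain ⟨ρ, hρ0, hρ1, hρ⟩ := Mt2_small v0 (2 * R' ^ 2) (Real.pi * (ε' ^ 2 / 8)) hv0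
    (by positivity) (by positivity)
  obtain ⟨δ, hδ, h⟩ := evoA2 b v0 hv0 κ hκ0 hκ1 (R' + 1) (ρ * (ε' ^ 2 / 8)) (by positivity)
  refine ⟨δ, hδ, fun μ hμ hb V hV hv lam hl0 hl1 T hT1 hT2 P hP τ hτ0 hτ1 => ?_⟩
  have hb0 : 0 ≤ b := by
    obtain ⟨s, hs⟩ := hb.exists
    exact (abs_nonneg s).trans hs
  have hV0 : 0 < V := lt_of_lt_of_le hv0 hv
  obtain ⟨-, h2⟩ := h μ hb V hV hv lam hl0 hl1 (fun ω => psi lam (cl b ω) 0) (by
    filter_upwards [Zk11.QQ.ae_Z (d := 2) μ b hb] with ω hω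
    rw [cl_eq hω]
    exact psi_ev hω 0)
  have hψ : ∀ᵐ ω ∂(PZ 2 μ), Ev lam ω 0 (psi lam (cl b ω) 0) := by
    filter_upwards [Zk11.QQ.ae_Z (d := 2) μ b hb] with ω hω
    rw [cl_eq hω]
    exact psi_ev hω 0
  have hP' : ∀ j, |P j| ≤ R' := fun j => (hP j).trans (le_abs_self R)
  have hc0 : 0 ≤ ∑ j, P j ^ 2 := Finset.sum_nonneg fun _ _ => sq_nonneg _
  have hcC : ∑ j, P j ^ 2 ≤ 2 * R' ^ 2 := by
    have h3 : ∀ j ∈ (Finset.univ : Finset (Fin 2)), P j ^ 2 ≤ R' ^ 2 := fun j _ => by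
      rw [← sq_abs]
      exact pow_le_pow_left₀ (abs_nonneg _) (hP' j) 2
    refine (Finset.sum_le_sum h3).trans ?_
    simp
  have hmain := win_fix μ lam (fun j => lam / Real.sqrt T * P j) hb0 T
    (fun τ => Real.pi⁻¹ * Mt2 V (∑ j, P j ^ 2) τ) ((Mt2_meas V _).const_mul _)
    R' ρ (ε' ^ 2 / 8) ε' hρ0 hρ1 hε'0 (min_le_right _ _) le_rfl hR'0 ?_ ?_ ?_ ?_ τ hτ0
    (hτ1.trans (le_abs_self R))
  · exact hmain.trans (min_le_left _ _)
  · intro σ hσ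
    have h3 := Mt2_bd hV0 hc0 σ hσ
    rw [abs_of_nonneg (by have := h3.1; positivity)]
    calc Real.pi⁻¹ * Mt2 V (∑ j, P j ^ 2) σ ≤ Real.pi⁻¹ * Real.pi :=
          mul_le_mul_of_nonneg_left h3.2 (by positivity)
      _ = 1 := inv_mul_cancel₀ hpi.ne'
  · intro σ hσ0 hσ1
    have h3 := hρ σ hσ0 hσ1 V hv _ hc0 hcC
    have h4 : 1 - Real.pi⁻¹ * Mt2 V (∑ j, P j ^ 2) σ =
        Real.pi⁻¹ * (Real.pi - Mt2 V (∑ j, P j ^ 2) σ) := by
      field_simp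
    change 1 - Real.pi⁻¹ * Mt2 V (∑ j, P j ^ 2) σ ≤ _
    rw [h4]
    calc _ ≤ Real.pi⁻¹ * (Real.pi * (ε' ^ 2 / 8)) := mul_le_mul_of_nonneg_left h3 (by positivity)
      _ = _ := by field_simp
  · intro t σ ht hσ0 hσ1
    have h3 := hρ σ hσ0 hσ1 V hv _ hc0 hcC
    have h5 := Mt2_incr hV0 hc0 t σ ht hσ0
    change |Real.pi⁻¹ * Mt2 V (∑ j, P j ^ 2) (t + σ) - Real.pi⁻¹ * Mt2 V (∑ j, P j ^ 2) t| ≤ _
    rw [← mul_sub, abs_mul, abs_of_pos (by positivity)]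
    calc _ ≤ Real.pi⁻¹ * (Real.pi * (ε' ^ 2 / 8)) :=
          mul_le_mul_of_nonneg_left (h5.trans h3) (by positivity)
      _ = _ := by field_simp
  · intro a c ha hac hcR
    have h3 := h2 T hT1 hT2 P (fun j => (hP' j).trans (by linarith)) a c ha hac hcR
    refine le_trans (le_of_eq ?_) h3
    congr 1
    refine intervalIntegral.integral_congr fun s _ => ?_
    congr 1
    exact (Spc_tsum μ hb0 hb lam _ (s * T) _ hψ).2.symm

/-- **time windows, disorder average** -/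
theorem evoAS2 (b v0 : ℝ) (hv0 : 0 < v0) (κ : ℝ) (hκ0 : 0 < κ) (hκ1 : κ < 1 / 3)
    (R : ℝ) (ε : ℝ) (hε : 0 < ε) :
    ∃ δ : ℝ, 0 < δ ∧ ∀ (μ : Measure ℝ) [IsProbabilityMeasure μ], (∀ᵐ s ∂μ, |s| ≤ b) →
      ∀ V : ℝ, V = ∫ s, (s - ∫ t, t ∂μ) ^ 2 ∂μ → v0 ≤ V → ∀ lam : ℝ, 0 < lam → lam < δ →
      ∀ T : ℝ, lam ^ (-2 : ℝ) / δ ≤ T → T ≤ lam ^ (-(2 + κ)) →
      ∀ P : Fin 2 → ℝ, (∀ j, |P j| ≤ R) → ∀ s : ℝ, 0 ≤ s → s ≤ R →
      ∀ a c : ℝ, 0 ≤ a → a ≤ c → c ≤ R →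
      ‖∫ τ in a..c, (mf2 μ b lam (fun j => lam / Real.sqrt T * P j) s (τ * T) -
          (Real.pi : ℂ)⁻¹ * Ms2 V (∑ j, P j ^ 2) s τ)‖ ≤ ε := by
  classical
  have hpi := Real.pi_pos
  obtain ⟨δ1, hδ1, h1⟩ := evoS2 b v0 hv0 κ hκ0 hκ1 (7 + 3 * κ) 1 one_pos (by linarith) R
    (ε / 2) (by positivity)
  set δ : ℝ := min (min δ1 1) (ε / (4 * (|R| + 1))) with hδ
  have hR0 := abs_nonneg R
  have hδ0 : 0 < δ := by
    rw [hδ]
    exact lt_min (lt_min hδ1 one_pos) (by positivity)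
  have hδa : δ ≤ δ1 := (min_le_left _ _).trans (min_le_left _ _)
  have hδc : δ ≤ ε / (4 * (|R| + 1)) := min_le_right _ _
  refine ⟨δ, hδ0, fun μ hμ hb V hV hv lam hl0 hl1 => ?_⟩
  have hb0 : 0 ≤ b := by
    obtain ⟨s, hs⟩ := hb.exists
    exact (abs_nonneg s).trans hs
  have hV0 : 0 < V := lt_of_lt_of_le hv0 hv
  intro T hT1 hT2 P hP s hs0 hs1 a c ha hac hcR
  -- the set `B`
  obtain ⟨B, hBc⟩ := Infinite.exists_subset_card_eq (Zd 2) ⌈lam ^ (-(7 + 3 * κ))⌉₊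
  have hBcard : lam ^ (-(7 + 3 * κ)) ≤ (B.card : ℝ) := by
    rw [hBc]
    exact Nat.le_ceil _
  have hBne : B.Nonempty := by
    rw [← Finset.card_pos]
    have h2 : (0 : ℝ) < lam ^ (-(7 + 3 * κ)) := by positivity
    exact_mod_cast lt_of_lt_of_le h2 hBcard
  obtain ⟨Good, hGm, hGp, hGb, hG⟩ := h1 μ hb V hV hv lam hl0 (lt_of_lt_of_le hl1 hδa) {B}
    (by
      rw [Finset.card_singleton, Nat.cast_one]
      exact Real.one_le_exp (by positivity))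
    (by
      intro B' hB'
      rw [Finset.mem_singleton] at hB'
      rw [hB']
      exact hBcard)
  set θ : Fin 2 → ℝ := fun j => lam / Real.sqrt T * P j with hθ
  set cc : ℝ := ∑ j, P j ^ 2 with hcc
  have hcc0 : 0 ≤ cc := Finset.sum_nonneg fun _ _ => by positivity
  set L : ℝ → ℂ := fun τ => (Real.pi : ℂ)⁻¹ * Ms2 V cc s τ with hL
  have hLm : StronglyMeasurable L := stronglyMeasurable_const.mul (Ms2_meas V cc s)
  have hLb : ∀ τ, 0 < τ → ‖L τ‖ ≤ 1 := fun τ hτ => pi_Ms2_le hV0 hcc0 s τ hτ.le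
  -- the integrand
  set D : ℝ → (Zd 2 → ℝ) → ℂ := fun τ ω => SBc2 lam b θ s B (τ * T) ω - L τ with hD
  have hDm : Measurable (Function.uncurry D) := by
    have h3 : Measurable fun p : ℝ × (Zd 2 → ℝ) => (p.1 * T, p.2) :=
      (measurable_fst.mul_const T).prodMk measurable_snd
    have h4 := (SBc2_meas2 hb0 lam θ s B).comp h3
    have h5 : Measurable fun p : ℝ × (Zd 2 → ℝ) => L p.1 := hLm.measurable.comp measurable_fst
    exact h4.sub h5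
  have hDb : ∀ τ ω, 0 < τ → ‖D τ ω‖ ≤ 2 := by
    intro τ ω hτ
    refine (norm_sub_le _ _).trans ?_
    have := SBc2_le hb0 lam θ s B (τ * T) ω
    have := hLb τ hτ
    linarith
  have hprod : Integrable (Function.uncurry D)
      ((volume.restrict (Set.Ioc a c)).prod (PZ 2 μ)) := by
    refine Integrable.mono' (integrable_const (2 : ℝ)) hDm.aestronglyMeasurable ?_
    have h6 : ∀ᵐ p ∂((volume.restrict (Set.Ioc a c)).prod (PZ 2 μ)), p.1 ∈ Set.Ioc a c := by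
      have h7 : ∀ᵐ τ ∂(volume.restrict (Set.Ioc a c)), τ ∈ Set.Ioc a c :=
        ae_restrict_mem measurableSet_Ioc
      exact (Measure.quasiMeasurePreserving_fst
        (μ := volume.restrict (Set.Ioc a c)) (ν := PZ 2 μ)).ae h7
    filter_upwards [h6] with p hp
    exact hDb p.1 p.2 (lt_of_le_of_lt ha hp.1)
  -- the mean
  have hmean : ∀ τ : ℝ, mf2 μ b lam θ s (τ * T) - L τ = ∫ ω, D τ ω ∂(PZ 2 μ) := by
    intro τ
    rw [← SBc2_mean μ lam θ hb0 s B hBne (τ * T)]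
    have hi : Integrable (fun ω => SBc2 lam b θ s B (τ * T) ω) (PZ 2 μ) := by
      have h3 := (SBc2_meas2 hb0 lam θ s B).comp (measurable_prodMk_left (x := τ * T))
      exact Integrable.mono' (integrable_const 1) h3.aestronglyMeasurable
        (Eventually.of_forall fun ω => SBc2_le hb0 lam θ s B _ ω)
    have h4 : ∫ ω, D τ ω ∂(PZ 2 μ) = (∫ ω, SBc2 lam b θ s B (τ * T) ω ∂(PZ 2 μ)) -
        ∫ _ω, L τ ∂(PZ 2 μ) := integral_sub hi (integrable_const _)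
    rw [h4]
    simp
  rw [intervalIntegral.integral_of_le hac]
  have h5 : ∫ τ in Set.Ioc a c, (mf2 μ b lam θ s (τ * T) - L τ) =
      ∫ ω, (∫ τ in Set.Ioc a c, D τ ω) ∂(PZ 2 μ) := by
    simp only [hmean]
    exact integral_integral_swap hprod
  rw [h5]
  -- pointwise bounds
  have h6 : ∀ᵐ ω ∂(PZ 2 μ), ‖∫ τ in Set.Ioc a c, D τ ω‖ ≤
      ε / 2 + Goodᶜ.indicator (fun _ => 2 * |R|) ω := by
    refine Eventually.of_forall fun ω => ?_
    by_cases hω : ω ∈ Good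
    · rw [Set.indicator_of_notMem (by simpa using hω), add_zero]
      have h7 := hG ω hω (psi lam ω) (fun y => psi_ev (hGb ω hω) y) B (Finset.mem_singleton_self B)
        T ((div_le_div_of_nonneg_left (by positivity) hδ0 hδa).trans hT1) hT2 P hP s hs0 hs1
        a c ha hac hcR
      rw [intervalIntegral.integral_of_le hac] at h7
      have h8 : ∀ τ, D τ ω = Df2 V cc θ s B (psi lam ω) T τ := by
        intro τ
        rw [hD]
        simp only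
        unfold Df2 SBc2
        rw [cl_eq (hGb ω hω)]
      simp only [h8]
      exact h7
    · rw [Set.indicator_of_mem (by simpa using hω)]
      have h7 := norm_setIntegral_le_of_norm_le_const (μ := volume) (s := Set.Ioc a c)
        (f := fun τ => D τ ω) (C := 2) (by simp) (fun τ hτ => hDb τ ω (lt_of_le_of_lt ha hτ.1))
      rw [Real.volume_real_Ioc_of_le hac] at h7
      have h8 : c - a ≤ |R| := by
        have := le_abs_self R
        linarith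
      have h9 : (2 : ℝ) * (c - a) ≤ 2 * |R| := by linarith
      linarith
  have h7 : ‖∫ ω, (∫ τ in Set.Ioc a c, D τ ω) ∂(PZ 2 μ)‖ ≤
      ∫ ω, (ε / 2 + Goodᶜ.indicator (fun _ => 2 * |R|) ω) ∂(PZ 2 μ) := by
    refine norm_integral_le_of_norm_le ?_ h6
    exact (integrable_const _).add ((integrable_const _).indicator hGm.compl)
  refine h7.trans ?_
  rw [integral_add (integrable_const _) ((integrable_const _).indicator hGm.compl),
    integral_indicator hGm.compl,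
    integral_const, integral_const, measureReal_restrict_apply_univ, smul_eq_mul, smul_eq_mul,
    probReal_univ, one_mul]
  have h8 : (PZ 2 μ).real Goodᶜ ≤ lam := by
    rw [probReal_compl_eq_one_sub hGm]
    have h9 : Real.exp (-lam ^ (-(1 : ℝ))) ≤ lam := by
      rw [Real.rpow_neg_one, Real.exp_neg, inv_le_comm₀ (Real.exp_pos _) hl0]
      have := Real.add_one_le_exp lam⁻¹
      linarith
    linarith
  have h9 : (PZ 2 μ).real Goodᶜ * (2 * |R|) ≤ ε / 2 := by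
    have h10 : lam ≤ ε / (4 * (|R| + 1)) := hl1.le.trans hδc
    calc (PZ 2 μ).real Goodᶜ * (2 * |R|) ≤ (ε / (4 * (|R| + 1))) * (2 * (|R| + 1)) := by
          refine mul_le_mul (h8.trans h10) (by linarith) (by positivity) (by positivity)
      _ = ε / 2 := by
          field_simp
          ring
  linarith

/-- **fixed times, disorder average** -/
theorem fixAS2 (b v0 : ℝ) (hv0 : 0 < v0) (κ : ℝ) (hκ0 : 0 < κ) (hκ1 : κ < 1 / 3)
    (R : ℝ) (ε : ℝ) (hε : 0 < ε) :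
    ∃ δ : ℝ, 0 < δ ∧ ∀ (μ : Measure ℝ) [IsProbabilityMeasure μ], (∀ᵐ s ∂μ, |s| ≤ b) →
      ∀ V : ℝ, V = ∫ s, (s - ∫ t, t ∂μ) ^ 2 ∂μ → v0 ≤ V → ∀ lam : ℝ, 0 < lam → lam < δ →
      ∀ T : ℝ, lam ^ (-2 : ℝ) / δ ≤ T → T ≤ lam ^ (-(2 + κ)) →
      ∀ P : Fin 2 → ℝ, (∀ j, |P j| ≤ R) → ∀ s : ℝ, 0 ≤ s → s ≤ R → ∀ τ : ℝ, 0 ≤ τ → τ ≤ R →
      ‖mf2 μ b lam (fun j => lam / Real.sqrt T * P j) s (τ * T) -
          (Real.pi : ℂ)⁻¹ * Ms2 V (∑ j, P j ^ 2) s τ‖ ≤ ε := by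
  have hpi := Real.pi_pos
  set ε' : ℝ := min ε 1 with hε'
  have hε'0 : 0 < ε' := lt_min hε one_pos
  have hε'1 : ε' ≤ 1 := min_le_right _ _
  set e1 : ℝ := ε' ^ 2 / 64 with he1
  have he10 : 0 < e1 := by positivity
  have he11 : e1 ≤ ε' / 64 := by
    rw [he1]
    nlinarith
  set R' : ℝ := |R| with hR'
  have hR'0 : 0 ≤ R' := abs_nonneg R
  obtain ⟨ρ, hρ0, hρ1, hρ⟩ := Mt2_small v0 (2 * R' ^ 2) (Real.pi * e1) hv0
    (by positivity) (by positivity)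
  obtain ⟨δ2, hδ2, h⟩ := evoAS2 b v0 hv0 κ hκ0 hκ1 (R' + 1) (ρ * e1) (by positivity)
  obtain ⟨δ3, hδ3, h0⟩ := fixA2 b v0 hv0 κ hκ0 hκ1 (R' + 1) e1 he10
  refine ⟨min δ2 δ3, lt_min hδ2 hδ3, fun μ hμ hb V hV hv lam hl0 hl1 T hT1 hT2 P hP s hs0 hs1
    τ hτ0 hτ1 => ?_⟩
  have hb0 : 0 ≤ b := by
    obtain ⟨s, hs⟩ := hb.exists
    exact (abs_nonneg s).trans hs
  have hV0 : 0 < V := lt_of_lt_of_le hv0 hv
  have hlp : 0 < lam ^ (-2 : ℝ) := Real.rpow_pos_of_pos hl0 _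
  have hTa : lam ^ (-2 : ℝ) / δ2 ≤ T :=
    (div_le_div_of_nonneg_left hlp.le (lt_min hδ2 hδ3) (min_le_left _ _)).trans hT1
  have hTb : lam ^ (-2 : ℝ) / δ3 ≤ T :=
    (div_le_div_of_nonneg_left hlp.le (lt_min hδ2 hδ3) (min_le_right _ _)).trans hT1
  have hP' : ∀ j, |P j| ≤ R' := fun j => (hP j).trans (le_abs_self R)
  have hP1 : ∀ j, |P j| ≤ R' + 1 := fun j => (hP' j).trans (by linarith)
  have hsR : s ≤ R' + 1 := by
    have := le_abs_self R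
    linarith
  have hτR : τ ≤ R' := hτ1.trans (le_abs_self R)
  set cc : ℝ := ∑ j, P j ^ 2 with hcc
  have hc0 : 0 ≤ cc := Finset.sum_nonneg fun _ _ => sq_nonneg _
  have hcC : cc ≤ 2 * R' ^ 2 := by
    have h3 : ∀ j ∈ (Finset.univ : Finset (Fin 2)), P j ^ 2 ≤ R' ^ 2 := fun j _ => by
      rw [← sq_abs]
      exact pow_le_pow_left₀ (abs_nonneg _) (hP' j) 2
    refine (Finset.sum_le_sum h3).trans ?_
    simp
  set θ : Fin 2 → ℝ := fun j => lam / Real.sqrt T * P j with hθ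
  set gc : ℝ → ℂ := fun τ => (Real.pi : ℂ)⁻¹ * Ms2 V cc s τ with hgc
  have hgcm : StronglyMeasurable gc := stronglyMeasurable_const.mul (Ms2_meas V cc s)
  have hgcb : ∀ τ, 0 ≤ τ → ‖gc τ‖ ≤ 1 := fun τ hτ => pi_Ms2_le hV0 hc0 s τ hτ
  have hsmall : ∀ σ, 0 ≤ σ → σ ≤ ρ → Real.pi⁻¹ * (Real.pi - Mt2 V cc σ) ≤ e1 := by
    intro σ hσ0 hσ1
    have h3 := hρ σ hσ0 hσ1 V hv _ hc0 hcC
    calc _ ≤ Real.pi⁻¹ * (Real.pi * e1) := mul_le_mul_of_nonneg_left h3 (by positivity)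
      _ = _ := by field_simp
  have hgcd : ∀ σ, 0 ≤ σ → σ ≤ ρ → ‖gc (τ + σ) - gc τ‖ ≤ e1 := by
    intro σ hσ0 hσ1
    have h5 := Ms2_incr hV0 hc0 s τ σ hτ0 hσ0
    rw [hgc]
    simp only
    rw [← mul_sub, norm_mul, norm_inv, Complex.norm_real, Real.norm_eq_abs, abs_of_pos hpi]
    exact (mul_le_mul_of_nonneg_left h5 (by positivity)).trans (hsmall σ hσ0 hσ1)
  -- increments near time zero
  have hinc : ∀ σ, 0 ≤ σ → σ ≤ ρ →
      ‖mf2 μ b lam θ s ((τ + σ) * T) - mf2 μ b lam θ s (τ * T)‖ ≤ ε' / 4 := by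
    intro σ hσ0 hσ1
    have h3 := mf2_incr μ lam θ hb0 s (σ * T) (τ * T)
    have e2 : σ * T + τ * T = (τ + σ) * T := by ring
    rw [e2] at h3
    have h4 := h0 μ hb V hV hv lam hl0 (lt_of_lt_of_le hl1 (min_le_right _ _)) T hTb hT2 P hP1 σ
      hσ0 (by linarith)
    have h5 : |(mf μ b lam θ (σ * T)).re - Real.pi⁻¹ * Mt2 V cc σ| ≤ e1 := by
      refine le_trans ?_ h4
      have h6 := Complex.abs_re_le_norm (mf μ b lam θ (σ * T) -
        ((Real.pi⁻¹ * Mt2 V cc σ : ℝ) : ℂ))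
      rwa [Complex.sub_re, Complex.ofReal_re] at h6
    have h6 := (abs_le.1 h5).1
    have h7 := hsmall σ hσ0 hσ1
    have h8 : Real.pi⁻¹ * (Real.pi - Mt2 V cc σ) = 1 - Real.pi⁻¹ * Mt2 V cc σ := by
      rw [mul_sub, inv_mul_cancel₀ hpi.ne']
    have h9 : ‖mf2 μ b lam θ s ((τ + σ) * T) - mf2 μ b lam θ s (τ * T)‖ ^ 2 ≤ (ε' / 4) ^ 2 := by
      refine h3.trans ?_
      have h10 : 4 * e1 = (ε' / 4) ^ 2 := by
        rw [he1]
        ring
      linarith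
    exact abs_le_of_sq_le_sq' h9 (by positivity) |>.2
  have hw := h μ hb V hV hv lam hl0 (lt_of_lt_of_le hl1 (min_le_left _ _)) T hTa hT2 P hP1 s hs0
    hsR τ (τ + ρ) hτ0 (by linarith) (by linarith)
  have hmm : StronglyMeasurable fun σ : ℝ => mf2 μ b lam θ s ((τ + σ) * T) :=
    (mf2_meas μ lam θ hb0 s).comp_measurable
      ((measurable_const.add measurable_id).mul_const T)
  have hfs : IntervalIntegrable (fun σ => mf2 μ b lam θ s ((τ + σ) * T)) volume 0 ρ :=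
    (intervalIntegrable_const (c := (1 : ℝ))).mono_fun hmm.aestronglyMeasurable
      (Eventually.of_forall fun σ => by
        rw [norm_one]
        exact mf2_le μ lam θ hb0 _ _)
  have hgs : IntervalIntegrable (fun σ => gc (τ + σ)) volume 0 ρ := by
    have hm2 : StronglyMeasurable fun σ : ℝ => gc (τ + σ) :=
      hgcm.comp_measurable (measurable_const.add measurable_id)
    refine (intervalIntegrable_const (c := (1 : ℝ))).mono_fun hm2.aestronglyMeasurable ?_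
    refine (ae_restrict_mem measurableSet_uIoc).mono fun σ hσ => ?_
    change ‖gc (τ + σ)‖ ≤ ‖(1 : ℝ)‖
    rw [norm_one]
    apply hgcb
    have := hσ.1
    rw [min_eq_left hρ0.le] at this
    linarith
  have e3 : ∫ σ in τ..τ + ρ, (mf2 μ b lam θ s (σ * T) - gc σ) =
      ∫ σ in (0 : ℝ)..ρ, (mf2 μ b lam θ s ((τ + σ) * T) - gc (τ + σ)) := by
    rw [intervalIntegral.integral_comp_add_left
      (fun σ => mf2 μ b lam θ s (σ * T) - gc σ) τ, add_zero]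
  have hw1 : ‖∫ σ in (0 : ℝ)..ρ, (mf2 μ b lam θ s ((τ + σ) * T) - gc (τ + σ))‖ ≤ ρ * e1 := by
    rw [← e3]
    exact hw
  have e4 : ((ρ : ℝ) : ℂ) * (mf2 μ b lam θ s (τ * T) - gc τ) =
      (∫ σ in (0 : ℝ)..ρ, (mf2 μ b lam θ s ((τ + σ) * T) - gc (τ + σ))) -
      (∫ σ in (0 : ℝ)..ρ, (mf2 μ b lam θ s ((τ + σ) * T) - mf2 μ b lam θ s (τ * T))) +
      ∫ σ in (0 : ℝ)..ρ, (gc (τ + σ) - gc τ) := by
    rw [intervalIntegral.integral_sub hfs hgs,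
      intervalIntegral.integral_sub hfs intervalIntegrable_const,
      intervalIntegral.integral_sub hgs intervalIntegrable_const, intervalIntegral.integral_const,
      intervalIntegral.integral_const]
    simp only [sub_zero, Complex.real_smul]
    ring
  have n1 : ‖∫ σ in (0 : ℝ)..ρ, (gc (τ + σ) - gc τ)‖ ≤ ρ * e1 := by
    have h7 := intervalIntegral.norm_integral_le_of_norm_le_const (a := 0) (b := ρ) (C := e1)
      (f := fun σ => gc (τ + σ) - gc τ) (fun σ hσ => by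
        rw [Set.uIoc_of_le hρ0.le] at hσ
        exact hgcd σ hσ.1.le hσ.2)
    rw [sub_zero, abs_of_pos hρ0] at h7
    linarith
  have n2 : ‖∫ σ in (0 : ℝ)..ρ, (mf2 μ b lam θ s ((τ + σ) * T) - mf2 μ b lam θ s (τ * T))‖ ≤
      ρ * (ε' / 4) := by
    have h7 := intervalIntegral.norm_integral_le_of_norm_le_const (a := 0) (b := ρ) (C := ε' / 4)
      (f := fun σ => mf2 μ b lam θ s ((τ + σ) * T) - mf2 μ b lam θ s (τ * T)) (fun σ hσ => by
        rw [Set.uIoc_of_le hρ0.le] at hσ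
        exact hinc σ hσ.1.le hσ.2)
    rw [sub_zero, abs_of_pos hρ0] at h7
    linarith
  have h16 : ρ * ‖mf2 μ b lam θ s (τ * T) - gc τ‖ ≤ ρ * e1 + ρ * (ε' / 4) + ρ * e1 := by
    have h17 : ρ * ‖mf2 μ b lam θ s (τ * T) - gc τ‖ =
        ‖((ρ : ℝ) : ℂ) * (mf2 μ b lam θ s (τ * T) - gc τ)‖ := by
      rw [norm_mul, Complex.norm_real, Real.norm_eq_abs, abs_of_pos hρ0]
    rw [h17, e4]
    refine (norm_add_le _ _).trans ?_
    exact add_le_add ((norm_sub_le _ _).trans (add_le_add hw1 n2)) n1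
  have h18 : ρ * e1 + ρ * (ε' / 4) + ρ * e1 = ρ * (2 * e1 + ε' / 4) := by ring
  rw [h18] at h16
  have h19 := le_of_mul_le_mul_left h16 hρ0
  have h20 : ε' ≤ ε := min_le_left _ _
  have h21 : ‖mf2 μ b lam θ s (τ * T) - gc τ‖ ≤ ε := by linarith
  exact h21

end Pool.Agent.Zk93.F2
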