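import Pool.Agent.Zk93.F2.M

/-! Two dimensions: two-time profiles in a fixed realization, time windows. -/

set_option autoImplicit false

open scoped BigOperators Topology
open MeasureTheory Filter

namespace Pool.Agent.Zk93.F2

open Pool.Agent.Zk11.QD hiding ex ex_norm
open Pool.Agent.Zk11.QQ (Gc Gc_isG sh ex ex_norm Ph FZ)
open Pool.Agent.Zk93.TE
open Pool.Agent.Zk93.FT (osc osc_norm osc_cont osc_int SB2 SB2_meas SB2_le SB2_lap FZ_int2)
open Pool.Agent.Zk71.S2 (gg hh gg_int gg_one gg_meas hh_meas gg_pos hh_pos Dd2 Dd2_nonneg Dd2_meas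
  Mt2 Mt2_bd Mt2_meas Mf2 Mf2_int Sx Sx_ms Ib Ib_ms Ib_sub Ib_vol gg_bulk quench3)

theorem evoS2 (b v0 : ℝ) (hv0 : 0 < v0) (κ : ℝ) (hκ0 : 0 < κ) (hκ1 : κ < 1 / 3)
    (β γ : ℝ) (hγ : 0 < γ) (hβ : 4 + 3 * κ + 2 * γ < β) (R : ℝ) (ε : ℝ) (hε : 0 < ε) :
    ∃ δ : ℝ, 0 < δ ∧ ∀ (μ : Measure ℝ) [IsProbabilityMeasure μ], (∀ᵐ s ∂μ, |s| ≤ b) →
      ∀ V : ℝ, V = ∫ s, (s - ∫ t, t ∂μ) ^ 2 ∂μ → v0 ≤ V → ∀ lam : ℝ, 0 < lam → lam < δ →
      ∀ 𝓑 : Finset (Finset (Zd 2)), (𝓑.card : ℝ) ≤ Real.exp (lam ^ (-γ)) →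
      (∀ B ∈ 𝓑, lam ^ (-β) ≤ (B.card : ℝ)) →
      ∃ Good : Set (Zd 2 → ℝ), MeasurableSet Good ∧
        1 - Real.exp (-lam ^ (-γ)) ≤ (PZ 2 μ).real Good ∧
        (∀ ω ∈ Good, ∀ x, |ω x| ≤ b) ∧
        ∀ ω ∈ Good, ∀ ψ : Zd 2 → ℝ → Zd 2 → ℂ, (∀ y, Ev lam ω y (ψ y)) →
          ∀ B ∈ 𝓑, ∀ T : ℝ, lam ^ (-2 : ℝ) / δ ≤ T → T ≤ lam ^ (-(2 + κ)) →
          ∀ P : Fin 2 → ℝ, (∀ j, |P j| ≤ R) → ∀ s : ℝ, 0 ≤ s → s ≤ R →
          ∀ a c : ℝ, 0 ≤ a → a ≤ c → c ≤ R →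
          ‖∫ τ in a..c, Df2 V (∑ j, P j ^ 2) (fun j => lam / Real.sqrt T * P j) s B ψ T τ‖ ≤
            ε := by
  have hpi := Real.pi_pos
  have hpi1 : 1 ≤ Real.pi := by have := Real.pi_gt_three; linarith
  obtain ⟨K, ε', hε'0, hwin⟩ := windows R ε hε
  set ε₁ : ℝ := ε' / 8 with hε₁
  set ε₂ : ℝ := ε' / (8 * 8) with hε₂
  have hε₁0 : 0 < ε₁ := by positivity
  have hε₂0 : 0 < ε₂ := by positivity
  obtain ⟨x, hx0, hx1, hmass⟩ := gg_bulk ε₁ hε₁0
  -- a slightly larger exponent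
  set κ' : ℝ := κ + min ((1 / 3 - κ) / 2) ((β - 4 - 3 * κ - 2 * γ) / 6) with hκ'
  have hm0 : 0 < min ((1 / 3 - κ) / 2) ((β - 4 - 3 * κ - 2 * γ) / 6) := by
    apply lt_min <;> linarith
  have hκκ' : κ < κ' := by rw [hκ']; linarith
  have hκ'1 : κ' < 1 / 3 := by
    have := min_le_left ((1 / 3 - κ) / 2) ((β - 4 - 3 * κ - 2 * γ) / 6)
    rw [hκ']; linarith
  have hκ'2 : 4 + 3 * κ' + 2 * γ < β := by
    have := min_le_right ((1 / 3 - κ) / 2) ((β - 4 - 3 * κ - 2 * γ) / 6)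
    rw [hκ']; linarith
  obtain ⟨δq, hδq, hq⟩ := quench3 x hx0 hx1 b v0 hv0 κ' (by linarith) hκ'1 β γ hγ hκ'2
    (|R| * Real.sqrt 2) ε₂ hε₂0
  set δs : ℝ := min 1 (ε' / 4) / ((K + 1) * (|R| + 1)) with hδs
  have hm1 : 0 < min 1 (ε' / 4) := lt_min one_pos (by positivity)
  have hR0 := abs_nonneg R
  have hδs0 : 0 < δs := by positivity
  set δ : ℝ := min (min (min δq 1) δs) (min (δq / (K + 1)) ((1 / 2 : ℝ) ^ (1 / (κ' - κ)))) with hδ
  have hδ0 : 0 < δ := by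
    rw [hδ]
    refine lt_min (lt_min (lt_min hδq one_pos) hδs0) (lt_min (by positivity) (by positivity))
  have hδ1 : δ ≤ δq := ((min_le_left _ _).trans (min_le_left _ _)).trans (min_le_left _ _)
  have hδ2 : δ ≤ 1 := ((min_le_left _ _).trans (min_le_left _ _)).trans (min_le_right _ _)
  have hδ5 : δ ≤ δs := (min_le_left _ _).trans (min_le_right _ _)
  have hδ3 : δ ≤ δq / (K + 1) := (min_le_right _ _).trans (min_le_left _ _)
  have hδ4 : δ ≤ (1 / 2 : ℝ) ^ (1 / (κ' - κ)) := (min_le_right _ _).trans (min_le_right _ _)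
  refine ⟨δ, hδ0, fun μ hμ hb V hV hv lam hl0 hl1 𝓑 h𝓑 hcard => ?_⟩
  have hV0 : 0 < V := lt_of_lt_of_le hv0 hv
  obtain ⟨Good, hGm, hGp, hG⟩ := hq μ hb V hV hv lam hl0 (lt_of_lt_of_le hl1 hδ1) 𝓑 h𝓑 hcard
  refine ⟨Good ∩ {ω : Zd 2 → ℝ | ∀ x, |ω x| ≤ b}, hGm.inter (bd_ae μ b hb).1, ?_, ?_, ?_⟩
  · rw [good_real μ b hb]
    exact hGp
  · intro ω hω
    exact hω.2
  rintro ω ⟨hωG, hωb⟩ ψ hψ B hB T hT1 hT2 P hP s hs0 hs1 a c ha hac hcR
  have hωb' : ∀ x, |ω x| ≤ b := hωb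
  have hT0 : 0 < T := lt_of_lt_of_le (by positivity) hT1
  set cc : ℝ := ∑ j, P j ^ 2 with hcc
  have hcc0 : 0 ≤ cc := Finset.sum_nonneg fun _ _ => by positivity
  have hBne : B.Nonempty := by
    rw [← Finset.card_pos]
    have h1 := hcard B hB
    have h2 : (0 : ℝ) < lam ^ (-β) := by positivity
    exact_mod_cast lt_of_lt_of_le h2 h1
  refine hwin _ (Df2_ad hψ hV0 hcc0 _ s B T) (fun k hk1 hkK => ?_) a c ha hac hcR
  refine (Df2_lap hωb' hψ hV0 hcc0 _ s hs0 B hBne T hT0 k hk1).trans ?_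
  have hk0 : (0 : ℝ) < k := by exact_mod_cast hk1
  have hk1r : (1 : ℝ) ≤ k := by exact_mod_cast hk1
  have hkK' : (k : ℝ) ≤ K := by exact_mod_cast hkK
  set η : ℝ := (k : ℝ) / (2 * T) with hη
  have hη0 : 0 < η := by positivity
  -- the range of `η`
  have hη1 : lam ^ (2 + κ') ≤ η := by
    have h1 : T ≤ (lam ^ (2 + κ))⁻¹ := by rwa [Real.rpow_neg hl0.le] at hT2
    have h2 : 0 < lam ^ (2 + κ) := by positivity
    have h3 : T * lam ^ (2 + κ) ≤ 1 := by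
      have := mul_le_mul_of_nonneg_right h1 h2.le
      rwa [inv_mul_cancel₀ h2.ne'] at this
    have h4 : lam ^ (κ' - κ) ≤ 1 / 2 := by
      have h5 : lam ≤ (1 / 2 : ℝ) ^ (1 / (κ' - κ)) := hl1.le.trans hδ4
      have h6 : 0 < κ' - κ := by linarith
      calc lam ^ (κ' - κ) ≤ ((1 / 2 : ℝ) ^ (1 / (κ' - κ))) ^ (κ' - κ) :=
            Real.rpow_le_rpow hl0.le h5 h6.le
        _ = 1 / 2 := by
            rw [← Real.rpow_mul (by norm_num), one_div_mul_cancel h6.ne', Real.rpow_one]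
    have h7 : lam ^ (2 + κ') = lam ^ (2 + κ) * lam ^ (κ' - κ) := by
      rw [← Real.rpow_add hl0]
      congr 1
      ring
    rw [h7, hη, le_div_iff₀ (by positivity)]
    calc lam ^ (2 + κ) * lam ^ (κ' - κ) * (2 * T) = (T * lam ^ (2 + κ)) * (2 * lam ^ (κ' - κ)) := by
          ring
      _ ≤ 1 * 1 := by
          refine mul_le_mul h3 (by linarith) (by positivity) zero_le_one
      _ ≤ k := by linarith
  have hη2 : η ≤ δq * lam ^ 2 := by
    have h1 : lam ^ (-2 : ℝ) = (lam ^ 2)⁻¹ := by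
      rw [Real.rpow_neg hl0.le]
      norm_cast
    rw [h1, div_le_iff₀ hδ0] at hT1
    have h2 : 0 < lam ^ 2 := by positivity
    have h3 : 1 ≤ T * δ * lam ^ 2 := by
      have := mul_le_mul_of_nonneg_right hT1 h2.le
      rwa [inv_mul_cancel₀ h2.ne'] at this
    rw [hη, div_le_iff₀ (by positivity)]
    have h4 : (K + 1 : ℝ) * δ ≤ δq := by
      rw [le_div_iff₀ (by positivity)] at hδ3
      linarith
    calc (k : ℝ) ≤ (K + 1) * 1 := by linarith
      _ ≤ (K + 1) * (T * δ * lam ^ 2) := by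
          refine mul_le_mul_of_nonneg_left h3 (by positivity)
      _ = ((K + 1) * δ) * (T * lam ^ 2) := by ring
      _ ≤ δq * (T * lam ^ 2) := mul_le_mul_of_nonneg_right h4 (by positivity)
      _ ≤ δq * lam ^ 2 * (2 * T) := by nlinarith [mul_pos hδq (mul_pos hT0 h2)]
  -- the momentum
  set P' : Fin 2 → ℝ := fun j => P j * Real.sqrt (2 / k) with hP'
  have hsq : Real.sqrt η * Real.sqrt (2 / k) = 1 / Real.sqrt T := by
    rw [← Real.sqrt_mul hη0.le, hη]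
    have : (k : ℝ) / (2 * T) * (2 / k) = 1 / T := by field_simp
    rw [this, Real.sqrt_div zero_le_one, Real.sqrt_one]
  have hθ : (fun j => lam / Real.sqrt T * P j) = fun j => lam * Real.sqrt η * P' j := by
    funext j
    rw [hP']
    simp only
    have : lam * Real.sqrt η * (P j * Real.sqrt (2 / k)) =
        lam * (Real.sqrt η * Real.sqrt (2 / k)) * P j := by ring
    rw [this, hsq]
    ring
  have hP'R : ∀ j, |P' j| ≤ |R| * Real.sqrt 2 := by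
    intro j
    rw [hP']
    simp only
    rw [abs_mul, abs_of_nonneg (Real.sqrt_nonneg _)]
    refine mul_le_mul ((hP j).trans (le_abs_self R)) ?_ (Real.sqrt_nonneg _) (abs_nonneg _)
    refine Real.sqrt_le_sqrt ?_
    rw [div_le_iff₀ hk0]
    linarith
  have hsum : ∑ j, P' j ^ 2 = 2 * cc / k := by
    rw [hP']
    simp only [mul_pow]
    rw [← Finset.sum_mul, Real.sq_sqrt (by positivity), ← hcc]
    ring
  have hc' : 0 ≤ 2 * cc / k := by positivity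
  rw [hθ]
  have hz0 : (fun j : Fin 2 => lam * Real.sqrt η * (0 : Fin 2 → ℝ) j) = 0 := by
    funext j
    simp
  -- the correction
  have hcorr : Real.exp (η * s) - 1 ≤ ε' / 2 := by
    have hT1' : 1 ≤ T * δ := by
      have h1 : 1 ≤ lam ^ (-2 : ℝ) := Real.one_le_rpow_of_pos_of_le_one_of_nonpos hl0
        (by linarith) (by norm_num)
      rw [div_le_iff₀ hδ0] at hT1
      linarith
    have hsR : s ≤ |R| + 1 := by
      have := le_abs_self R
      linarith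
    have h1 : η * s ≤ min 1 (ε' / 4) := by
      have h2 : η ≤ (K + 1) * δ := by
        rw [hη, div_le_iff₀ (by positivity)]
        nlinarith [mul_nonneg (show (0 : ℝ) ≤ K by positivity) hδ0.le]
      have h3 : (K + 1) * δ ≤ min 1 (ε' / 4) / (|R| + 1) := by
        calc (K + 1 : ℝ) * δ ≤ (K + 1) * δs := mul_le_mul_of_nonneg_left hδ5 (by positivity)
          _ = _ := by
              rw [hδs]
              field_simp
      calc η * s ≤ (min 1 (ε' / 4) / (|R| + 1)) * (|R| + 1) :=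
            mul_le_mul (h2.trans h3) hsR hs0 (by positivity)
        _ = _ := by field_simp
    have h4 : η * s ≤ 1 := h1.trans (min_le_left _ _)
    have h5 : η * s ≤ ε' / 4 := h1.trans (min_le_right _ _)
    have h6 : 0 ≤ η * s := by positivity
    have h7 := Real.abs_exp_sub_one_le (x := η * s) (by rw [abs_of_nonneg h6]; exact h4)
    rw [abs_of_nonneg h6] at h7
    have h8 := le_abs_self (Real.exp (η * s) - 1)
    linarith
  have hbulk := bulkc2 (Q := fun E : ℝ => osc s E * FZ lam ((E : ℂ) + (η : ℂ) * Complex.I)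
      (fun j => lam * Real.sqrt η * P' j) B ω)
    (Q0 := fun E : ℝ => (FZ lam ((E : ℂ) + (η : ℂ) * Complex.I) 0 B ω).re)
    (g := fun E => gg E)
    (m := fun E => osc s E * ((gg E / (1 + Dd2 V E * (2 * cc / k)) : ℝ) : ℂ))
    (S := Sx) (I := Ib x) (w := 8) (M := Real.pi) (ε₁ := ε₁) (ε₂ := ε₂)
    (Ib_ms x) Sx_ms (Ib_sub hx0) (Ib_vol x hx0).1 (Ib_vol x hx0).2 hε₂0.le
    (FZ_int2 hωb' hψ _ η hη0 s hs0 B).1 (FZ_int hωb' hψ 0 η hη0 B).1.re
    (fun E => by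
      rw [norm_mul, osc_norm, one_mul]
      exact FZ_norm hωb' hψ _ η hη0 B E) (FZ_mass hωb' hψ η hη0 B hBne)
    gg_int (osc_int s (Mf2_int hV0 hc')) ?_ gg_one.le hmass ?_ ?_
  · have h5 : 2 * ε₁ + 2 * (ε₂ * 8) ≤ ε' / 2 := by
      rw [hε₁, hε₂]
      linarith
    have h9 : ‖(∫ E : ℝ, osc s E * FZ lam ((E : ℂ) + (η : ℂ) * Complex.I)
        (fun j => lam * Real.sqrt η * P' j) B ω) - Msf2 V (2 * cc / k) s‖ ≤ ε' / 2 :=
      hbulk.trans h5
    linarith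
  · intro E hE
    have h1 := Dd2_nonneg hV0 hE
    have h2 := gg_pos hE
    rw [norm_mul, osc_norm, one_mul, Complex.norm_real, Real.norm_eq_abs,
      abs_of_nonneg (by positivity)]
    exact div_le_self h2.le (by have := mul_nonneg h1 hc'; linarith)
  · intro E hE
    have h1 := hG ω hωG B hB E η hE hη1 hη2 P' hP'R
    rw [hsum] at h1
    change ‖osc s E * FZ lam ((E : ℂ) + (η : ℂ) * Complex.I) (fun j => lam * Real.sqrt η * P' j) B ω
      - osc s E * ((gg E / (1 + Dd2 V E * (2 * cc / k)) : ℝ) : ℂ)‖ ≤ ε₂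
    rw [← mul_sub, norm_mul, osc_norm, one_mul]
    exact h1
  · intro E hE
    have h1 := hG ω hωG B hB E η hE hη1 hη2 0 (fun j => by simp)
    rw [hz0] at h1
    have h2 : (gg E / (1 + Dd2 V E *
        ∑ j : Fin 2, (0 : Fin 2 → ℝ) j ^ 2) : ℝ) = gg E := by
      simp
    rw [h2] at h1
    refine le_trans ?_ h1
    have h3 := Complex.abs_re_le_norm (FZ lam ((E : ℂ) + (η : ℂ) * Complex.I) 0 B ω -
      ((gg E : ℝ) : ℂ))
    rwa [Complex.sub_re, Complex.ofReal_re] at h3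

end Pool.Agent.Zk93.F2
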