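import Pool.Agent.Zk93.FT.TwoA
import Pool.Agent.Zk71.S2.Ann

/-! Two dimensions: the limit of the two-time profiles. -/

set_option autoImplicit false

open scoped BigOperators Topology
open MeasureTheory Filter

namespace Pool.Agent.Zk93.F2

open Pool.Agent.Zk11.QD (Zd HZ PZ IsG Lap exp_norm exp_int exp_val)
open Pool.Agent.Zk11.QQ (Gc Gc_isG sh ex ex_norm Ph FZ)
open Pool.Agent.Zk93.TE
open Pool.Agent.Zk93.FT (osc osc_norm osc_cont osc_int SB2 SB2_meas SB2_le SB2_lap)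
open Pool.Agent.Zk71.S2 (gg hh gg_int gg_one gg_meas hh_meas gg_pos hh_pos Dd2 Dd2_nonneg Dd2_meas
  Mt2 Mt2_bd Mt2_meas Mf2 Mf2_int Sx Sx_ms Ib Ib_ms Ib_sub Ib_vol gg_bulk quench3)

/-- bulk energies carry the whole mass -/
theorem bulkc2 {Q m : ℝ → ℂ} {Q0 g : ℝ → ℝ} {S I : Set ℝ} {w M ε₁ ε₂ : ℝ}
    (hIm : MeasurableSet I) (hSm : MeasurableSet S) (hsub : I ⊆ S) (hfin : volume I < ⊤)
    (hw : volume.real I ≤ w) (hε₂ : 0 ≤ ε₂) (hQ : Integrable Q)
    (hQ0 : Integrable Q0) (hle : ∀ E, ‖Q E‖ ≤ Q0 E) (hM : ∫ E, Q0 E = M)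
    (hg : IntegrableOn g S) (hm : IntegrableOn m S)
    (hmg : ∀ E ∈ S, ‖m E‖ ≤ g E)
    (hgM : ∫ E in S, g E ≤ M) (hgI : M - ε₁ ≤ ∫ E in I, g E)
    (h1 : ∀ E ∈ I, ‖Q E - m E‖ ≤ ε₂)
    (h2 : ∀ E ∈ I, |Q0 E - g E| ≤ ε₂) :
    ‖(∫ E, Q E) - ∫ E in S, m E‖ ≤ 2 * ε₁ + 2 * (ε₂ * w) := by
  have hvol : ε₂ * volume.real I ≤ ε₂ * w := mul_le_mul_of_nonneg_left hw hε₂
  have hgi : IntegrableOn g I := hg.mono_set hsub
  have hmi : IntegrableOn m I := hm.mono_set hsub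
  -- on the bulk
  have b1 : ‖(∫ E in I, Q E) - ∫ E in I, m E‖ ≤ ε₂ * w := by
    rw [← integral_sub hQ.integrableOn hmi]
    exact (norm_setIntegral_le_of_norm_le_const hfin h1).trans hvol
  have b2 : (∫ E in I, g E) - ε₂ * w ≤ ∫ E in I, Q0 E := by
    have h3 : |∫ E in I, (Q0 E - g E)| ≤ ε₂ * w := by
      rw [← Real.norm_eq_abs]
      exact (norm_setIntegral_le_of_norm_le_const hfin h2).trans hvol
    rw [integral_sub hQ0.integrableOn hgi] at h3
    have := (abs_le.1 h3).1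
    linarith
  -- off the bulk
  have b3 : ‖∫ E in Iᶜ, Q E‖ ≤ ε₁ + ε₂ * w := by
    have h3 : ‖∫ E in Iᶜ, Q E‖ ≤ ∫ E in Iᶜ, Q0 E :=
      norm_integral_le_of_norm_le hQ0.integrableOn (Eventually.of_forall hle)
    have h4 := integral_add_compl hIm hQ0
    rw [hM] at h4
    linarith
  have b4 : ‖(∫ E in S, m E) - ∫ E in I, m E‖ ≤ ε₁ := by
    have e1 := setIntegral_sdiff hIm hm hsub
    have e2 := setIntegral_sdiff hIm hg hsub
    rw [← e1]
    have hdm : MeasurableSet (S \ I) := hSm.diff hIm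
    have h4 : ‖∫ E in S \ I, m E‖ ≤ ∫ E in S \ I, g E :=
      norm_integral_le_of_norm_le (hg.mono_set Set.sdiff_subset)
        ((ae_restrict_mem hdm).mono fun E hE => hmg E hE.1)
    rw [e2] at h4
    linarith
  have h5 := integral_add_compl hIm hQ
  rw [← h5]
  have e3 : (∫ E in I, Q E) + (∫ E in Iᶜ, Q E) - ∫ E in S, m E =
      ((∫ E in I, Q E) - ∫ E in I, m E) + (∫ E in Iᶜ, Q E) -
        ((∫ E in S, m E) - ∫ E in I, m E) := by
    ring
  rw [e3]
  refine (norm_sub_le _ _).trans ?_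
  refine (add_le_add (norm_add_le _ _) le_rfl).trans ?_
  linarith

theorem Mt2_int {V : ℝ} (hV : 0 < V) {c : ℝ} (hc : 0 ≤ c) (τ : ℝ) (hτ : 0 ≤ τ) :
    IntegrableOn (fun E => gg E * Real.exp (-(2 * τ * Dd2 V E * c)))
      (Sx) := by
  refine Integrable.mono' gg_int ?_ ?_
  · refine (gg_meas.mul (Real.measurable_exp.comp
      (((measurable_const.mul (Dd2_meas V)).mul_const c).neg))).aestronglyMeasurable
  · refine (ae_restrict_mem Sx_ms).mono fun E hE => ?_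
    have h1 := Dd2_nonneg hV hE
    have h2 := gg_pos hE
    rw [Real.norm_eq_abs, abs_of_nonneg (by positivity)]
    have h3 : Real.exp (-(2 * τ * Dd2 V E * c)) ≤ 1 := by
      rw [Real.exp_le_one_iff]
      have : 0 ≤ 2 * τ * Dd2 V E * c := by positivity
      linarith
    nlinarith

theorem Mt2_zero (V c : ℝ) : Mt2 V c 0 = Real.pi := by
  unfold Mt2
  rw [← gg_one]
  simp

/-- the increments of the profile -/
theorem Mt2_incr {V : ℝ} (hV : 0 < V) {c : ℝ} (hc : 0 ≤ c) (τ σ : ℝ) (hτ : 0 ≤ τ)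
    (hσ : 0 ≤ σ) : |Mt2 V c (τ + σ) - Mt2 V c τ| ≤ Real.pi - Mt2 V c σ := by
  have i1 := Mt2_int hV hc (τ + σ) (by positivity)
  have i2 := Mt2_int hV hc τ hτ
  have i3 := Mt2_int hV hc σ hσ
  have i4 := gg_int
  rw [← gg_one]
  unfold Mt2
  rw [← integral_sub i1 i2, ← integral_sub i4 i3, ← Real.norm_eq_abs]
  refine norm_integral_le_of_norm_le (i4.sub i3) ?_
  refine (ae_restrict_mem Sx_ms).mono fun E hE => ?_
  have h1 := Dd2_nonneg hV hE
  have h2 := gg_pos hE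
  have e1 : gg E * Real.exp (-(2 * (τ + σ) * Dd2 V E * c)) -
      gg E * Real.exp (-(2 * τ * Dd2 V E * c)) =
      -(gg E * Real.exp (-(2 * τ * Dd2 V E * c)) *
        (1 - Real.exp (-(2 * σ * Dd2 V E * c)))) := by
    have : -(2 * (τ + σ) * Dd2 V E * c) = -(2 * τ * Dd2 V E * c) + -(2 * σ * Dd2 V E * c) := by
      ring
    rw [this, Real.exp_add]
    ring
  have h3 : Real.exp (-(2 * σ * Dd2 V E * c)) ≤ 1 := by
    rw [Real.exp_le_one_iff]
    have : 0 ≤ 2 * σ * Dd2 V E * c := by positivity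
    linarith
  have h4 : Real.exp (-(2 * τ * Dd2 V E * c)) ≤ 1 := by
    rw [Real.exp_le_one_iff]
    have : 0 ≤ 2 * τ * Dd2 V E * c := by positivity
    linarith
  rw [e1, norm_neg, Real.norm_eq_abs, abs_of_nonneg (by
    have := Real.exp_pos (-(2 * τ * Dd2 V E * c))
    have h5 : 0 ≤ 1 - Real.exp (-(2 * σ * Dd2 V E * c)) := by linarith
    positivity)]
  have h5 : 0 ≤ 1 - Real.exp (-(2 * σ * Dd2 V E * c)) := by linarith
  calc gg E * Real.exp (-(2 * τ * Dd2 V E * c)) *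
        (1 - Real.exp (-(2 * σ * Dd2 V E * c))) ≤
        gg E * 1 * (1 - Real.exp (-(2 * σ * Dd2 V E * c))) := by gcongr
    _ = _ := by ring

/-- uniform smallness near time zero -/
theorem Mt2_small (v0 C ε : ℝ) (hv0 : 0 < v0) (hC : 0 ≤ C) (hε : 0 < ε) :
    ∃ ρ : ℝ, 0 < ρ ∧ ρ ≤ 1 ∧ ∀ σ : ℝ, 0 ≤ σ → σ ≤ ρ → ∀ V : ℝ, v0 ≤ V → ∀ c : ℝ, 0 ≤ c → c ≤ C →
      Real.pi - Mt2 V c σ ≤ ε := by
  -- reduction to one function
  have hlim : Tendsto (fun s : ℝ => Mt2 v0 C s) (𝓝[>] 0) (𝓝 Real.pi) := by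
    rw [← Mt2_zero v0 C]
    unfold Mt2
    refine tendsto_integral_filter_of_dominated_convergence (fun E => gg E) ?_ ?_
      gg_int ?_
    · filter_upwards [self_mem_nhdsWithin] with s hs
      exact (Mt2_int hv0 hC s (le_of_lt hs)).aestronglyMeasurable
    · filter_upwards [self_mem_nhdsWithin] with s hs
      refine (ae_restrict_mem Sx_ms).mono fun E hE => ?_
      have hs' : (0 : ℝ) < s := hs
      have h1 := Dd2_nonneg hv0 hE
      have h2 := gg_pos hE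
      rw [Real.norm_eq_abs, abs_of_nonneg (by positivity)]
      have h3 : Real.exp (-(2 * s * Dd2 v0 E * C)) ≤ 1 := by
        rw [Real.exp_le_one_iff]
        have : 0 ≤ 2 * s * Dd2 v0 E * C := by positivity
        linarith
      nlinarith
    · refine Eventually.of_forall fun E => ?_
      have hc : Continuous fun s : ℝ => gg E * Real.exp (-(2 * s * Dd2 v0 E * C)) := by
        fun_prop
      exact (hc.tendsto 0).mono_left nhdsWithin_le_nhds
  have hev := hlim.eventually_const_le (show Real.pi - ε < Real.pi by linarith)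
  obtain ⟨r, hr, hsub⟩ := mem_nhdsGT_iff_exists_Ioo_subset.1 hev
  have hr0 : (0 : ℝ) < r := hr
  refine ⟨min (r / 2) 1, lt_min (by linarith) one_pos, min_le_right _ _, ?_⟩
  intro σ hσ0 hσ1 V hV c hc0 hcC
  have hV0 : 0 < V := lt_of_lt_of_le hv0 hV
  set ρ := min (r / 2) 1 with hρ
  have hρ0 : 0 < ρ := lt_min (by linarith) one_pos
  have hρr : ρ < r := lt_of_le_of_lt (min_le_left _ _) (by linarith)
  have h1 : Real.pi - ε ≤ Mt2 v0 C ρ := hsub ⟨hρ0, hρr⟩
  have h2 : Mt2 v0 C ρ ≤ Mt2 V c σ := by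
    unfold Mt2
    refine setIntegral_mono_on (Mt2_int hv0 hC ρ hρ0.le) (Mt2_int hV0 hc0 σ hσ0)
      Sx_ms fun E hE => ?_
    have h3 := gg_pos hE
    have h4 := hh_pos hE
    refine mul_le_mul_of_nonneg_left (Real.exp_le_exp.2 (neg_le_neg ?_)) h3.le
    have h5 : Dd2 V E ≤ Dd2 v0 E := by
      unfold Dd2
      gcongr
    have h6 := Dd2_nonneg hV0 hE
    have h7 := Dd2_nonneg hv0 hE
    have h8 : 2 * σ * Dd2 V E * c ≤ 2 * ρ * Dd2 v0 E * C := by gcongr
    exact h8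
  linarith

/-- the limit profile -/
noncomputable def Ms2 (V c s τ : ℝ) : ℂ :=
  ∫ E in Sx, osc s E *
    ((gg E * Real.exp (-(2 * τ * Dd2 V E * c)) : ℝ) : ℂ)

/-- its Laplace transform -/
noncomputable def Msf2 (V c s : ℝ) : ℂ :=
  ∫ E in Sx, osc s E * ((gg E / (1 + Dd2 V E * c) : ℝ) : ℂ)

theorem Ms2_lap {V : ℝ} (hV : 0 < V) {c : ℝ} (hc : 0 ≤ c) (s k : ℝ) (hk : 0 < k) :
    IntegrableOn (fun τ => ((k * Real.exp (-(k * τ)) : ℝ) : ℂ) * Ms2 V c s τ) (Set.Ioi 0) ∧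
    ∫ τ in Set.Ioi (0 : ℝ), ((k * Real.exp (-(k * τ)) : ℝ) : ℂ) * Ms2 V c s τ =
      Msf2 V (2 * c / k) s := by
  set f : ℝ → ℝ → ℝ := fun τ E => k * Real.exp (-(k * τ)) *
    (gg E * Real.exp (-(2 * τ * Dd2 V E * c))) with hf
  have hmeas : Measurable (Function.uncurry f) := by
    rw [hf]
    unfold Function.uncurry
    have m1 : Measurable fun p : ℝ × ℝ => gg p.2 :=
      gg_meas.comp measurable_snd
    have m2 : Measurable fun p : ℝ × ℝ => Dd2 V p.2 := (Dd2_meas V).comp measurable_snd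
    have m3 : Measurable fun p : ℝ × ℝ => p.1 := measurable_fst
    exact ((measurable_const.mul (Real.measurable_exp.comp ((measurable_const.mul m3).neg)))).mul
      (m1.mul (Real.measurable_exp.comp ((((measurable_const.mul m3).mul m2).mul_const c).neg)))
  have hint : Integrable (Function.uncurry f)
      ((volume.restrict (Set.Ioi 0)).prod (volume.restrict (Sx))) := by
    have h1 : Integrable (fun τ : ℝ => k * Real.exp (-(k * τ))) (volume.restrict (Set.Ioi 0)) :=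
      (exp_int k hk).const_mul k
    have h2 := h1.mul_prod gg_int
    refine Integrable.mono' h2 hmeas.aestronglyMeasurable ?_
    rw [Measure.prod_restrict]
    refine (ae_restrict_mem (measurableSet_Ioi.prod Sx_ms)).mono fun p hp => ?_
    obtain ⟨hp1, hp2⟩ := hp
    have hp1' : 0 < p.1 := hp1
    have h3 := Dd2_nonneg hV hp2
    have h4 := gg_pos hp2
    rw [hf]
    unfold Function.uncurry
    simp only
    rw [Real.norm_eq_abs, abs_of_nonneg (by positivity)]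
    refine mul_le_mul_of_nonneg_left ?_ (by positivity)
    refine mul_le_of_le_one_right h4.le ?_
    rw [Real.exp_le_one_iff]
    have : 0 ≤ 2 * p.1 * Dd2 V p.2 * c := by positivity
    linarith
  set fc : ℝ → ℝ → ℂ := fun τ E => osc s E * ((f τ E : ℝ) : ℂ) with hfc
  have hintc : Integrable (Function.uncurry fc)
      ((volume.restrict (Set.Ioi 0)).prod (volume.restrict (Sx))) := by
    have h1 : Function.uncurry fc = fun p : ℝ × ℝ => osc s p.2 *
        ((Function.uncurry f p : ℝ) : ℂ) := by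
      funext p
      rfl
    rw [h1]
    refine (hint.ofReal (𝕜 := ℂ)).bdd_mul (c := 1) ?_ ?_
    · exact ((osc_cont s).comp continuous_snd).aestronglyMeasurable
    · exact Eventually.of_forall fun p => (osc_norm s p.2).le
  have hswap := integral_integral_swap hintc
  have e1 : ∀ τ, ∫ E in Sx, fc τ E =
      ((k * Real.exp (-(k * τ)) : ℝ) : ℂ) * Ms2 V c s τ := by
    intro τ
    unfold Ms2
    rw [← integral_const_mul]
    refine integral_congr_ae (Eventually.of_forall fun E => ?_)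
    rw [hfc, hf]
    simp only
    push_cast
    ring
  refine ⟨?_, ?_⟩
  · have h5 := hintc.integral_prod_left
    refine h5.congr (Eventually.of_forall fun τ => ?_)
    exact e1 τ
  · simp only [e1] at hswap
    rw [hswap]
    unfold Msf2
    refine setIntegral_congr_fun Sx_ms fun E hE => ?_
    have h3 := Dd2_nonneg hV hE
    have hpos : 0 < k + 2 * Dd2 V E * c := by positivity
    have e2 : ∀ τ, f τ E = k * gg E * Real.exp (-((k + 2 * Dd2 V E * c) * τ)) := by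
      intro τ
      rw [hf]
      simp only
      have : Real.exp (-((k + 2 * Dd2 V E * c) * τ)) =
          Real.exp (-(k * τ)) * Real.exp (-(2 * τ * Dd2 V E * c)) := by
        rw [← Real.exp_add]
        congr 1
        ring
      rw [this]
      ring
    change ∫ τ in Set.Ioi (0 : ℝ), fc τ E = _
    rw [hfc]
    simp only [e2]
    rw [integral_const_mul, integral_complex_ofReal, integral_const_mul, exp_val _ hpos]
    have h1 : 0 < 1 + Dd2 V E * (2 * c / k) := by positivity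
    congr 2
    field_simp

theorem Ms2_int {V : ℝ} (hV : 0 < V) {c : ℝ} (hc : 0 ≤ c) (s τ : ℝ) (hτ : 0 ≤ τ) :
    IntegrableOn (fun E => osc s E * ((gg E * Real.exp (-(2 * τ * Dd2 V E * c)) : ℝ) : ℂ))
      (Sx) := osc_int s (Mt2_int hV hc τ hτ)

theorem Ms2_bd {V : ℝ} (hV : 0 < V) {c : ℝ} (hc : 0 ≤ c) (s τ : ℝ) (hτ : 0 ≤ τ) :
    ‖Ms2 V c s τ‖ ≤ Real.pi := by
  refine le_trans ?_ (Mt2_bd hV hc τ hτ).2
  unfold Ms2 Mt2
  refine norm_integral_le_of_norm_le (Mt2_int hV hc τ hτ) ?_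
  refine (ae_restrict_mem Sx_ms).mono fun E hE => ?_
  have h2 := gg_pos hE
  rw [norm_mul, osc_norm, one_mul, Complex.norm_real, Real.norm_eq_abs,
    abs_of_nonneg (by positivity)]

theorem Ms2_incr {V : ℝ} (hV : 0 < V) {c : ℝ} (hc : 0 ≤ c) (s τ σ : ℝ) (hτ : 0 ≤ τ)
    (hσ : 0 ≤ σ) : ‖Ms2 V c s (τ + σ) - Ms2 V c s τ‖ ≤ Real.pi - Mt2 V c σ := by
  have i1 := Ms2_int hV hc s (τ + σ) (by positivity)
  have i2 := Ms2_int hV hc s τ hτ
  have i3 := Mt2_int hV hc σ hσ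
  have i4 := gg_int
  rw [← gg_one]
  unfold Mt2 Ms2
  rw [← integral_sub i1 i2, ← integral_sub i4 i3]
  refine norm_integral_le_of_norm_le (i4.sub i3) ?_
  refine (ae_restrict_mem Sx_ms).mono fun E hE => ?_
  have h1 := Dd2_nonneg hV hE
  have h2 := gg_pos hE
  have e1 : gg E * Real.exp (-(2 * (τ + σ) * Dd2 V E * c)) -
      gg E * Real.exp (-(2 * τ * Dd2 V E * c)) =
      -(gg E * Real.exp (-(2 * τ * Dd2 V E * c)) *
        (1 - Real.exp (-(2 * σ * Dd2 V E * c)))) := by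
    have : -(2 * (τ + σ) * Dd2 V E * c) = -(2 * τ * Dd2 V E * c) + -(2 * σ * Dd2 V E * c) := by
      ring
    rw [this, Real.exp_add]
    ring
  have h3 : Real.exp (-(2 * σ * Dd2 V E * c)) ≤ 1 := by
    rw [Real.exp_le_one_iff]
    have : 0 ≤ 2 * σ * Dd2 V E * c := by positivity
    linarith
  have h4 : Real.exp (-(2 * τ * Dd2 V E * c)) ≤ 1 := by
    rw [Real.exp_le_one_iff]
    have : 0 ≤ 2 * τ * Dd2 V E * c := by positivity
    linarith
  rw [← mul_sub, norm_mul, osc_norm, one_mul, ← Complex.ofReal_sub, e1, Complex.norm_real,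
    norm_neg, Real.norm_eq_abs, abs_of_nonneg (by
    have := Real.exp_pos (-(2 * τ * Dd2 V E * c))
    have h5 : 0 ≤ 1 - Real.exp (-(2 * σ * Dd2 V E * c)) := by linarith
    positivity)]
  have h5 : 0 ≤ 1 - Real.exp (-(2 * σ * Dd2 V E * c)) := by linarith
  calc gg E * Real.exp (-(2 * τ * Dd2 V E * c)) *
        (1 - Real.exp (-(2 * σ * Dd2 V E * c))) ≤
        gg E * 1 * (1 - Real.exp (-(2 * σ * Dd2 V E * c))) := by gcongr
    _ = _ := by ring

theorem Ms2_meas (V c s : ℝ) : StronglyMeasurable (Ms2 V c s) := by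
  unfold Ms2
  have m1 : Measurable fun p : ℝ × ℝ => gg p.2 :=
    gg_meas.comp measurable_snd
  have m2 : Measurable fun p : ℝ × ℝ => Dd2 V p.2 := (Dd2_meas V).comp measurable_snd
  have m3 : Measurable fun p : ℝ × ℝ => p.1 := measurable_fst
  have h : Measurable (Function.uncurry fun τ E : ℝ => osc s E *
      ((gg E * Real.exp (-(2 * τ * Dd2 V E * c)) : ℝ) : ℂ)) := by
    unfold Function.uncurry
    exact ((osc_cont s).measurable.comp measurable_snd).mul (Complex.measurable_ofReal.comp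
      (m1.mul (Real.measurable_exp.comp ((((measurable_const.mul m3).mul m2).mul_const c).neg))))
  exact h.stronglyMeasurable.integral_prod_right

/-- the difference between the profile and its limit -/
noncomputable def Df2 (V c : ℝ) (θ : Fin 2 → ℝ) (s : ℝ) (B : Finset (Zd 2))
    (ψ : Zd 2 → ℝ → Zd 2 → ℂ) (T τ : ℝ) : ℂ :=
  SB2 θ s B ψ (τ * T) - (Real.pi : ℂ)⁻¹ * Ms2 V c s τ

theorem pi_Ms2_le {V : ℝ} (hV : 0 < V) {c : ℝ} (hc : 0 ≤ c) (s τ : ℝ)
    (hτ : 0 ≤ τ) : ‖(Real.pi : ℂ)⁻¹ * Ms2 V c s τ‖ ≤ 1 := by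
  have hpi := Real.pi_pos
  have h2 := Ms2_bd hV hc s τ hτ
  rw [norm_mul, norm_inv, Complex.norm_real, Real.norm_eq_abs, abs_of_pos hpi,
    inv_mul_le_iff₀ hpi, mul_one]
  exact h2

theorem Df2_ad {lam : ℝ} {ω : Zd 2 → ℝ} {ψ : Zd 2 → ℝ → Zd 2 → ℂ}
    (h : ∀ y, Ev lam ω y (ψ y)) {V : ℝ} (hV : 0 < V) {c : ℝ} (hc : 0 ≤ c) (θ : Fin 2 → ℝ)
    (s : ℝ) (B : Finset (Zd 2)) (T : ℝ) : Ad (Df2 V c θ s B ψ T) := by
  constructor
  · unfold Df2
    refine AEStronglyMeasurable.sub ?_ ?_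
    · exact ((SB2_meas h θ s B).comp (measurable_id.mul_const T)).aestronglyMeasurable
    · exact (stronglyMeasurable_const.mul (Ms2_meas V c s)).aestronglyMeasurable
  · intro τ hτ
    unfold Df2
    refine (norm_sub_le _ _).trans ?_
    have h1 := SB2_le h θ s B (τ * T)
    have h2 := pi_Ms2_le hV hc s τ hτ.le
    linarith

theorem Df2_lap {lam b : ℝ} {ω : Zd 2 → ℝ} (hω : ∀ x, |ω x| ≤ b)
    {ψ : Zd 2 → ℝ → Zd 2 → ℂ} (h : ∀ y, Ev lam ω y (ψ y)) {V : ℝ} (hV : 0 < V) {c : ℝ}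
    (hc : 0 ≤ c) (θ : Fin 2 → ℝ) (s : ℝ) (hs : 0 ≤ s) (B : Finset (Zd 2)) (hB : B.Nonempty)
    (T : ℝ) (hT : 0 < T) (k : ℕ) (hk : 1 ≤ k) :
    ‖∫ τ in Set.Ioi (0 : ℝ), ((Real.exp (-((k : ℝ) * τ)) : ℝ) : ℂ) * Df2 V c θ s B ψ T τ‖ ≤
      ‖(∫ E : ℝ, osc s E * FZ lam ((E : ℂ) + (((k : ℝ) / (2 * T) : ℝ) : ℂ) * Complex.I) θ B ω) -
        Msf2 V (2 * c / k) s‖ + (Real.exp ((k : ℝ) / (2 * T) * s) - 1) := by
  have hk0 : (0 : ℝ) < k := by exact_mod_cast hk
  have hk1 : (1 : ℝ) ≤ k := by exact_mod_cast hk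
  have hpi := Real.pi_pos
  have hpi1 : 1 ≤ Real.pi := by have := Real.pi_gt_three; linarith
  have h1 := SB2_lap hω h θ B T k hT hk0 s hs
  have h2 := Ms2_lap hV hc s k hk0
  have hη : 0 < (k : ℝ) / (2 * T) := by positivity
  set X := ∫ E : ℝ, osc s E * FZ lam ((E : ℂ) + (((k : ℝ) / (2 * T) : ℝ) : ℂ) * Complex.I) θ B ω
    with hX
  have hXle : ‖X‖ ≤ Real.pi := by
    rw [← FZ_mass hω h ((k : ℝ) / (2 * T)) hη B hB, hX]
    refine norm_integral_le_of_norm_le (FZ_int hω h 0 _ hη B).1.re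
      (Eventually.of_forall fun E => ?_)
    rw [norm_mul, osc_norm, one_mul]
    exact FZ_norm hω h θ _ hη B E
  -- integrability of the two parts
  have i1 : IntegrableOn (fun τ : ℝ => (((k : ℝ) * Real.exp (-((k : ℝ) * τ)) : ℝ) : ℂ) *
      SB2 θ s B ψ (τ * T)) (Set.Ioi 0) := by
    refine Integrable.mono' ((exp_int (k : ℝ) hk0).const_mul (k : ℝ)) ?_
      (Eventually.of_forall fun τ => ?_)
    · exact (Continuous.aestronglyMeasurable (by fun_prop)).mul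
        ((SB2_meas h θ s B).comp (measurable_id.mul_const T)).aestronglyMeasurable
    · rw [norm_mul, Complex.norm_real, Real.norm_eq_abs, abs_of_nonneg (by positivity)]
      exact mul_le_of_le_one_right (by positivity) (SB2_le h θ s B _)
  have h4 : (k : ℂ) * ∫ τ in Set.Ioi (0 : ℝ), ((Real.exp (-((k : ℝ) * τ)) : ℝ) : ℂ) *
      Df2 V c θ s B ψ T τ = (Real.pi : ℂ)⁻¹ * ((X - Msf2 V (2 * c / k) s) +
        (((Real.exp ((k : ℝ) / (2 * T) * s) - 1 : ℝ)) : ℂ) * X) := by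
    have h5 : (Real.pi : ℂ)⁻¹ * ((X - Msf2 V (2 * c / k) s) +
        (((Real.exp ((k : ℝ) / (2 * T) * s) - 1 : ℝ)) : ℂ) * X) =
        ((Real.exp ((k : ℝ) / (2 * T) * s) : ℝ) : ℂ) * ((Real.pi : ℂ)⁻¹ * X) -
        (Real.pi : ℂ)⁻¹ * Msf2 V (2 * c / k) s := by
      push_cast
      ring
    rw [h5]
    have h6 : ((Real.exp ((k : ℝ) / (2 * T) * s) : ℝ) : ℂ) * ((Real.pi : ℂ)⁻¹ * X) =
        ∫ τ in Set.Ioi (0 : ℝ), (((k : ℝ) * Real.exp (-((k : ℝ) * τ)) : ℝ) : ℂ) *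
          SB2 θ s B ψ (τ * T) := h1.symm
    have h8 : (Real.pi : ℂ)⁻¹ * ∫ τ in Set.Ioi (0 : ℝ),
        (((k : ℝ) * Real.exp (-((k : ℝ) * τ)) : ℝ) : ℂ) * Ms2 V c s τ =
        ∫ τ in Set.Ioi (0 : ℝ), (Real.pi : ℂ)⁻¹ *
          ((((k : ℝ) * Real.exp (-((k : ℝ) * τ)) : ℝ) : ℂ) * Ms2 V c s τ) :=
      (integral_const_mul _ _).symm
    rw [h6, ← h2.2, h8, ← integral_sub i1 (h2.1.const_mul _), ← integral_const_mul]
    refine integral_congr_ae (Eventually.of_forall fun τ => ?_)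
    simp only
    unfold Df2
    push_cast
    ring
  have h5 := congrArg norm h4
  rw [norm_mul, norm_mul, Complex.norm_natCast, norm_inv, Complex.norm_real, Real.norm_eq_abs,
    abs_of_pos hpi] at h5
  have hexp : 0 ≤ Real.exp ((k : ℝ) / (2 * T) * s) - 1 := by
    have := Real.one_le_exp (show 0 ≤ (k : ℝ) / (2 * T) * s by positivity)
    linarith
  have h7 : ‖(X - Msf2 V (2 * c / k) s) + (((Real.exp ((k : ℝ) / (2 * T) * s) - 1 : ℝ)) : ℂ) *
      X‖ ≤ ‖X - Msf2 V (2 * c / k) s‖ + (Real.exp ((k : ℝ) / (2 * T) * s) - 1) * Real.pi := by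
    refine (norm_add_le _ _).trans (add_le_add le_rfl ?_)
    rw [norm_mul, Complex.norm_real, Real.norm_eq_abs, abs_of_nonneg hexp]
    exact mul_le_mul_of_nonneg_left hXle hexp
  calc ‖∫ τ in Set.Ioi (0 : ℝ), ((Real.exp (-((k : ℝ) * τ)) : ℝ) : ℂ) * Df2 V c θ s B ψ T τ‖ ≤
        (k : ℝ) * ‖∫ τ in Set.Ioi (0 : ℝ), ((Real.exp (-((k : ℝ) * τ)) : ℝ) : ℂ) *
          Df2 V c θ s B ψ T τ‖ := le_mul_of_one_le_left (norm_nonneg _) hk1
    _ = Real.pi⁻¹ * _ := h5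
    _ ≤ Real.pi⁻¹ * (‖X - Msf2 V (2 * c / k) s‖ +
          (Real.exp ((k : ℝ) / (2 * T) * s) - 1) * Real.pi) :=
        mul_le_mul_of_nonneg_left h7 (by positivity)
    _ = Real.pi⁻¹ * ‖X - Msf2 V (2 * c / k) s‖ + (Real.exp ((k : ℝ) / (2 * T) * s) - 1) := by
        field_simp
    _ ≤ _ := by
        refine add_le_add ?_ le_rfl
        exact mul_le_of_le_one_left (norm_nonneg _) (inv_le_one_of_one_le₀ hpi1)

end Pool.Agent.Zk93.F2
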