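import Pool.Agent.Zk93.F2.Q
import Pool.Agent.Zk71.S2.Unif

/-! Two dimensions: the uniform law on `[-c, c]`. -/

set_option autoImplicit false

open scoped BigOperators Topology
open MeasureTheory Filter

namespace Pool.Agent.Zk93.F2

open Pool.Agent.Zk11.QD hiding ex ex_norm
open Pool.Agent.Zk11.QQ (ex ex_norm)
open Pool.Agent.Zk93.TE
open Pool.Agent.Zk93.FT (SB2 mf2 Spc2_tsum)
open Pool.Agent.Zk71.DR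
open Pool.Agent.Zk71.S2 (map_af ev_af af_val)

/-- fixed realization -/
theorem unifQS (κ : ℝ) (hκ0 : 0 < κ) (hκ1 : κ < 1 / 3)
    (β γ : ℝ) (hγ : 0 < γ) (hβ : 2 + 2 * κ + 2 * γ < β) (R : ℝ) (ε : ℝ) (hε : 0 < ε) :
    ∃ δ : ℝ, 0 < δ ∧ ∀ c : ℝ, 0 < c → c < δ →
      ∀ 𝓑 : Finset (Finset (Zd 2)), (𝓑.card : ℝ) ≤ Real.exp (c ^ (-γ)) →
      (∀ B ∈ 𝓑, c ^ (-β) ≤ (B.card : ℝ)) →
      ∃ Good : Set (Zd 2 → ℝ), MeasurableSet Good ∧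
        1 - Real.exp (-c ^ (-γ)) ≤ (PZ 2 (unif c)).real Good ∧
        (∀ ω ∈ Good, ∀ x, |ω x| ≤ c) ∧
        ∀ ω ∈ Good, ∀ ψ : Zd 2 → ℝ → Zd 2 → ℂ, (∀ y, Ev 1 ω y (ψ y)) →
          ∀ B ∈ 𝓑, ∀ T : ℝ, c ^ (-2 : ℝ) / δ ≤ T → T ≤ c ^ (-(2 + κ)) →
          ∀ P : Fin 2 → ℝ, (∀ j, |P j| ≤ R) → ∀ s : ℝ, 0 ≤ s → s ≤ R →
          ∀ τ : ℝ, 0 ≤ τ → τ ≤ R →
          ‖SB2 (fun j => c / Real.sqrt T * P j) s B ψ (τ * T) -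
            (Real.pi : ℂ)⁻¹ * Ms2 (1 / 3) (∑ j, P j ^ 2) s τ‖ ≤ ε := by
  obtain ⟨δ, hδ, h⟩ := fixQS2 1 (1 / 3) (by norm_num) κ hκ0 hκ1 β γ hγ hβ R ε hε
  have hp1 := unif_prob 1 one_pos
  refine ⟨δ, hδ, fun c hc0 hc1 𝓑 h𝓑 hcard => ?_⟩
  obtain ⟨Good, hGm, hGp, hGb, hG⟩ := h (unif 1) (unif_bdd 1) (1 / 3) unif_var le_rfl c hc0 hc1
    𝓑 h𝓑 hcard
  have hmeas : Measurable (af1 2 c 0 hc0.ne') := (af1 2 c 0 hc0.ne').measurable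
  refine ⟨(af1 2 c 0 hc0.ne') ⁻¹' Good, hmeas hGm, ?_, ?_, ?_⟩
  · refine hGp.trans (le_of_eq ?_)
    rw [← map_af c hc0, measureReal_def, measureReal_def, Measure.map_apply hmeas hGm]
  · intro ω hω x
    have h1 := hGb _ hω x
    rw [af_val, abs_div, abs_of_pos hc0, div_le_one hc0] at h1
    exact h1
  · intro ω hω ψ hψ
    exact hG _ hω ψ fun y => (ev_af c hc0.ne' ω y (ψ y)).1 (hψ y)

/-- the disorder average -/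
theorem unifAS (κ : ℝ) (hκ0 : 0 < κ) (hκ1 : κ < 1 / 3) (R : ℝ) (ε : ℝ) (hε : 0 < ε) :
    ∃ δ : ℝ, 0 < δ ∧ ∀ c : ℝ, 0 < c → c < δ →
      ∀ ψ : (Zd 2 → ℝ) → ℝ → Zd 2 → ℂ, (∀ᵐ ω ∂(PZ 2 (unif c)), Ev 1 ω 0 (ψ ω)) →
      (∀ t s, Summable fun x => ‖∫ ω, (starRingEnd ℂ) (ψ ω (t + s) x) * ψ ω t x
        ∂(PZ 2 (unif c))‖) ∧
      ∀ T : ℝ, c ^ (-2 : ℝ) / δ ≤ T → T ≤ c ^ (-(2 + κ)) →
      ∀ P : Fin 2 → ℝ, (∀ j, |P j| ≤ R) → ∀ s : ℝ, 0 ≤ s → s ≤ R → ∀ τ : ℝ, 0 ≤ τ → τ ≤ R →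
      ‖(∑' x : Zd 2, ex (fun j => c / Real.sqrt T * P j) x *
          (∫ ω, (starRingEnd ℂ) (ψ ω (τ * T + s) x) * ψ ω (τ * T) x ∂(PZ 2 (unif c)))) -
          (Real.pi : ℂ)⁻¹ * Ms2 (1 / 3) (∑ j, P j ^ 2) s τ‖ ≤ ε := by
  obtain ⟨δ, hδ, h⟩ := fixAS2 1 (1 / 3) (by norm_num) κ hκ0 hκ1 R ε hε
  have hp1 := unif_prob 1 one_pos
  refine ⟨δ, hδ, fun c hc0 hc1 ψ hψ => ?_⟩
  have hψ' : ∀ᵐ ω ∂(PZ 2 (unif 1)), Ev c ω 0 (ψ ((af1 2 c 0 hc0.ne').symm ω)) := by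
    rw [← map_af c hc0, (af1 2 c 0 hc0.ne').measurableEmbedding.ae_map_iff]
    refine hψ.mono fun ω hω => ?_
    rw [MeasurableEquiv.symm_apply_apply]
    exact (ev_af c hc0.ne' ω 0 (ψ ω)).1 hω
  have hint : ∀ t s x, ∫ ω, (starRingEnd ℂ) (ψ ((af1 2 c 0 hc0.ne').symm ω) (t + s) x) *
      ψ ((af1 2 c 0 hc0.ne').symm ω) t x ∂(PZ 2 (unif 1)) =
      ∫ ω, (starRingEnd ℂ) (ψ ω (t + s) x) * ψ ω t x ∂(PZ 2 (unif c)) := by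
    intro t s x
    rw [← map_af c hc0, integral_map_equiv]
    simp only [MeasurableEquiv.symm_apply_apply]
  have hres := fun (θ : Fin 2 → ℝ) (s t : ℝ) => Spc2_tsum (unif 1) zero_le_one (unif_bdd 1) c θ s t
    (fun ω => ψ ((af1 2 c 0 hc0.ne').symm ω)) hψ'
  simp only [hint] at hres
  refine ⟨fun t s => (hres 0 s t).1, fun T hT1 hT2 P hP s hs0 hs1 τ hτ0 hτ1 => ?_⟩
  rw [(hres _ s (τ * T)).2]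
  exact h (unif 1) (unif_bdd 1) (1 / 3) unif_var le_rfl c hc0 hc1 T hT1 hT2 P hP s hs0 hs1 τ hτ0 hτ1

end Pool.Agent.Zk93.F2
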